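import Pool.Agent.Q173.PT.Laws

/-!
# Iitaka's inequality for fibrations which are almost of general type
-/

set_option autoImplicit false

namespace Pool.Agent.Q173.PT

universe u

/-- Data of fibrations `F → E → B` of complex projective manifolds, such that the Kodaira dimensions of
`F` and `B` are nonnegative. -/
structure FibData (V : Type u) where
  /-- the dimension of the fibre `F` -/
  dF : V → ℕ
  /-- the dimension of the base `B` -/
  dB : V → ℕ
  /-- the Kodaira dimension of the fibre -/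
  kF : V → ℕ
  /-- the Kodaira dimension of the base -/
  kB : V → ℕ
  /-- the Kodaira dimension of the total space `E` (`⊥` is `-∞`) -/
  kE : V → WithBot ℕ
  /-- the dimension of the image of the Albanese map of the fibre -/
  aF : V → ℕ
  /-- the dimension of the image of the Albanese map of the base -/
  aB : V → ℕ
  /-- products `F × F' → E × E' → B × B'` -/
  prod : V → V → V

namespace FibData

variable {V : Type u} (G : FibData V)

/-- The defect `(dim F - κ(F)) + (dim B - κ(B))`. -/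
def defect (f : V) : ℕ := (G.dF f - G.kF f) + (G.dB f - G.kB f)

/-- The inequality `κ(E) ≥ t`. -/
def Ge (f : V) (t : ℝ) : Prop := ∃ e : ℕ, G.kE f = (e : WithBot ℕ) ∧ t ≤ e

/-- Iitaka's inequality. -/
def Iitaka (f : V) : Prop := G.Ge f (G.kF f + G.kB f)

/-- The known properties. -/
structure IsKnown : Prop where
  dF_prod : ∀ f g, G.dF (G.prod f g) = G.dF f + G.dF g
  dB_prod : ∀ f g, G.dB (G.prod f g) = G.dB f + G.dB g
  kF_prod : ∀ f g, G.kF (G.prod f g) = G.kF f + G.kF g
  kB_prod : ∀ f g, G.kB (G.prod f g) = G.kB f + G.kB g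
  kE_prod : ∀ f g, G.kE (G.prod f g) = G.kE f + G.kE g
  aF_prod : ∀ f g, G.aF (G.prod f g) = G.aF f + G.aF g
  aB_prod : ∀ f g, G.aB (G.prod f g) = G.aB f + G.aB g
  kF_le : ∀ f, G.kF f ≤ G.dF f
  kB_le : ∀ f, G.kB f ≤ G.dB f
  /-- the theorem of Kollár -/
  kollar : ∀ f, G.kF f = G.dF f → G.Iitaka f
  /-- the theorem of Viehweg -/
  viehweg : ∀ f, G.kB f = G.dB f → G.Iitaka f
  /-- a product of two curves of genus two -/
  curves : ∃ t, G.dF t = 1 ∧ G.dB t = 1 ∧ G.kF t = 1 ∧ G.kB t = 1 ∧ G.kE t = ((2 : ℕ) : WithBot ℕ) ∧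
    G.aF t = 1 ∧ G.aB t = 1

/-- The fibre and the base are almost of general type and almost of maximal Albanese dimension: with
respect to the defect `a`, which is at least `D`, the dimensions of fibre and base are at least
`h a`, and their Albanese maps have fibres of dimension at most `r a`. -/
def Almost (D : ℕ) (h : ℕ → ℕ) (r : ℕ) (f : V) : Prop :=
  D ≤ G.defect f ∧ h (G.defect f) ≤ G.dF f ∧ h (G.defect f) ≤ G.dB f ∧
    G.dF f ≤ G.aF f + r * G.defect f ∧ G.dB f ≤ G.aB f + r * G.defect f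

end FibData

namespace FibData

variable {V : Type u} {G : FibData V}

theorem add_ne_bot {a b : WithBot ℕ} {e : ℕ} (h : a + b = (e : WithBot ℕ)) :
    ∃ x y : ℕ, a = (x : WithBot ℕ) ∧ b = (y : WithBot ℕ) ∧ x + y = e := by
  induction a with
  | bot => simp at h
  | coe x =>
    induction b with
    | bot => simp at h
    | coe y => exact ⟨x, y, rfl, rfl, WithBot.coe_injective (by rw [WithBot.coe_add]; exact h)⟩

theorem pw_nat {q : V → ℕ} {prod : V → V → V} (hq : ∀ f g, q (prod f g) = q f + q g) (f : V)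
    (k : ℕ) : q (pw prod f k) = (k + 1) * q f := by
  induction k with
  | zero => simp [pw]
  | succ k ih =>
    change q (prod (pw prod f k) f) = _
    rw [hq, ih]; ring

theorem pw_bot (hG : G.IsKnown) (f : V) (k : ℕ) {e : ℕ}
    (h : G.kE (pw G.prod f k) = (e : WithBot ℕ)) :
    ∃ x : ℕ, G.kE f = (x : WithBot ℕ) ∧ e = (k + 1) * x := by
  induction k generalizing e with
  | zero => exact ⟨e, h, by ring⟩
  | succ k ih =>
    have h1 : G.kE (G.prod (pw G.prod f k) f) = (e : WithBot ℕ) := h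
    rw [hG.kE_prod] at h1
    obtain ⟨x, y, hx, hy, hxy⟩ := add_ne_bot h1
    obtain ⟨z, hz, hz2⟩ := ih hx
    have : y = z := by
      rw [hz] at hy
      exact_mod_cast hy.symm
    subst this
    exact ⟨y, hy, by rw [← hxy, hz2]; ring⟩

theorem pw_curves (hG : G.IsKnown) {t : V} (ht : G.kE t = ((2 : ℕ) : WithBot ℕ)) (j : ℕ) :
    G.kE (pw G.prod t j) = ((2 * (j + 1) : ℕ) : WithBot ℕ) := by
  induction j with
  | zero => simpa [pw] using ht
  | succ j ih =>
    change G.kE (G.prod (pw G.prod t j) t) = _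
    rw [hG.kE_prod, ih, ht]
    norm_cast

/-- The inequality for dimension at most `N` from the approximate inequality for one `ε`. -/
theorem IsKnown.level (hG : G.IsKnown) (N D r : ℕ) (h : ℕ → ℕ) (hN : 1 ≤ N) (hr : N ≤ r)
    (H : ∀ f, G.Almost D h r f → G.Ge f (G.kF f + G.kB f - (G.defect f : ℝ) / (2 * N))) :
    ∀ f, G.dF f + G.dB f ≤ N → G.Iitaka f := by
  intro f hf
  by_contra hI
  have h1 : G.kF f < G.dF f := lt_of_le_of_ne (hG.kF_le f) fun hc => hI (hG.kollar f hc)
  have hdef : 1 ≤ G.defect f := by unfold defect; omega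
  have hkB := hG.kB_le f
  obtain ⟨t, t1, t2, t3, t4, t5, t6, t7⟩ := hG.curves
  -- a power and a product with curves
  set j := h ((D + 1) * G.defect f) with hj
  set g := G.prod (pw G.prod f D) (pw G.prod t j) with hg
  have e1 : G.dF g = (D + 1) * G.dF f + (j + 1) := by
    rw [hg, hG.dF_prod, pw_nat hG.dF_prod, pw_nat hG.dF_prod, t1]; ring
  have e2 : G.dB g = (D + 1) * G.dB f + (j + 1) := by
    rw [hg, hG.dB_prod, pw_nat hG.dB_prod, pw_nat hG.dB_prod, t2]; ring
  have e3 : G.kF g = (D + 1) * G.kF f + (j + 1) := by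
    rw [hg, hG.kF_prod, pw_nat hG.kF_prod, pw_nat hG.kF_prod, t3]; ring
  have e4 : G.kB g = (D + 1) * G.kB f + (j + 1) := by
    rw [hg, hG.kB_prod, pw_nat hG.kB_prod, pw_nat hG.kB_prod, t4]; ring
  have e5 : G.aF g = (D + 1) * G.aF f + (j + 1) := by
    rw [hg, hG.aF_prod, pw_nat hG.aF_prod, pw_nat hG.aF_prod, t6]; ring
  have e6 : G.aB g = (D + 1) * G.aB f + (j + 1) := by
    rw [hg, hG.aB_prod, pw_nat hG.aB_prod, pw_nat hG.aB_prod, t7]; ring
  have e7 : G.defect g = (D + 1) * G.defect f := by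
    unfold defect
    rw [e1, e2, e3, e4, mul_add]
    congr 1
    · rw [Nat.mul_sub]; omega
    · rw [Nat.mul_sub]; omega
  have hA : G.Almost D h r g := by
    refine ⟨by rw [e7]; nlinarith, by rw [e7, e1]; omega, by rw [e7, e2]; omega, ?_, ?_⟩
    · rw [e7, e1, e5]
      have : (D + 1) * G.dF f ≤ r * ((D + 1) * G.defect f) := by
        have h2 : G.dF f ≤ r * G.defect f := by nlinarith
        calc (D + 1) * G.dF f ≤ (D + 1) * (r * G.defect f) := Nat.mul_le_mul_left _ h2
          _ = _ := by ring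
      omega
    · rw [e7, e2, e6]
      have : (D + 1) * G.dB f ≤ r * ((D + 1) * G.defect f) := by
        have h2 : G.dB f ≤ r * G.defect f := by nlinarith
        calc (D + 1) * G.dB f ≤ (D + 1) * (r * G.defect f) := Nat.mul_le_mul_left _ h2
          _ = _ := by ring
      omega
  obtain ⟨e, he, hle⟩ := H g hA
  have he' : G.kE (pw G.prod f D) + G.kE (pw G.prod t j) = (e : WithBot ℕ) := by
    rw [← hG.kE_prod]; exact he
  obtain ⟨x, y, hx, hy, hxy⟩ := add_ne_bot he'
  obtain ⟨z, hz, hz2⟩ := pw_bot hG f D hx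
  rw [pw_curves hG t5] at hy
  have hy' : 2 * (j + 1) = y := by exact_mod_cast hy
  -- Iitaka's inequality holds for `f`
  apply hI
  refine ⟨z, hz, ?_⟩
  by_contra hlt
  push Not at hlt
  have hlt' : z + 1 ≤ G.kF f + G.kB f := by
    have : z < G.kF f + G.kB f := by exact_mod_cast hlt
    omega
  rw [e3, e4, e7] at hle
  have h3 : (e : ℝ) = (D + 1) * z + 2 * (j + 1) := by
    rw [← hxy, hz2, ← hy']; push_cast; ring
  rw [h3] at hle
  push_cast at hle
  have h4 : (z : ℝ) + 1 ≤ G.kF f + G.kB f := by exact_mod_cast hlt'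
  have h5 : (G.defect f : ℝ) ≤ N := by
    have : G.defect f ≤ N := by unfold defect; omega
    exact_mod_cast this
  have hN' : (0 : ℝ) < N := by exact_mod_cast hN
  have h6 : ((D : ℝ) + 1) * G.defect f / (2 * N) ≤ (D + 1) / 2 := by
    rw [div_le_div_iff₀ (by positivity) (by norm_num)]
    have : (0 : ℝ) ≤ D := Nat.cast_nonneg _
    nlinarith
  have h7 : (0 : ℝ) ≤ D := Nat.cast_nonneg _
  nlinarith

theorem Iitaka.ge {f : V} (h : G.Iitaka f) {t : ℝ} (ht : t ≤ G.kF f + G.kB f) : G.Ge f t := by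
  obtain ⟨e, h1, h2⟩ := h
  exact ⟨e, h1, ht.trans h2⟩

/-- **Main theorem.** -/
theorem IsKnown.iitaka_iff (hG : G.IsKnown) :
    (∀ f, G.Iitaka f) ↔ ∀ ε : ℝ, 0 < ε → ∀ r : ℕ, ∃ (D : ℕ) (h : ℕ → ℕ), ∀ f, G.Almost D h r f →
      G.Ge f (G.kF f + G.kB f - ε * G.defect f) := by
  constructor
  · intro h ε hε r
    refine ⟨0, fun _ => 0, fun f _ => (h f).ge ?_⟩
    have : (0 : ℝ) ≤ G.defect f := Nat.cast_nonneg _
    nlinarith
  · intro H f
    have hpos : (0 : ℝ) < (G.dF f + G.dB f + 1 : ℕ) := by positivity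
    obtain ⟨D, h, hD⟩ := H (1 / (2 * (G.dF f + G.dB f + 1 : ℕ))) (by positivity)
      (G.dF f + G.dB f + 1)
    refine hG.level (G.dF f + G.dB f + 1) D (G.dF f + G.dB f + 1) h (by omega) le_rfl
      (fun g hg => ?_) f (by omega)
    obtain ⟨e, h1, h2⟩ := hD g hg
    refine ⟨e, h1, le_trans (le_of_eq ?_) h2⟩
    rw [div_mul_eq_mul_div, one_mul]

end FibData

end Pool.Agent.Q173.PT
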