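import Mathlib

/-!
# Two laws for quantities on classes closed under products
-/

set_option autoImplicit false

namespace Pool.Agent.Q173.PT

universe u

variable {V : Type u}

/-- The powers `M ^ (k + 1)`. -/
def pw (prod : V → V → V) (M : V) : ℕ → V
  | 0 => M
  | k + 1 => prod (pw prod M k) M

/-- **Linear law.** A superadditive quantity, positive on one member, is at least a constant times
the dimension for some member of every large dimension. -/
theorem linear_law (dim : V → ℕ) (q : V → ℝ) (prod : V → V → V)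
    (hdim : ∀ M N, dim (prod M N) = dim M + dim N)
    (hq : ∀ M N, q M + q N ≤ q (prod M N))
    (T : V) (hT : dim T = 1) (hqT : 0 ≤ q T) {M₀ : V} (h₀ : 0 < q M₀) (hd : 1 ≤ dim M₀) :
    ∃ B : ℕ, ∀ n, B ≤ n → ∃ M, dim M = n ∧ q M₀ / (2 * dim M₀) * n ≤ q M := by
  have hpw : ∀ (M : V) (k : ℕ), dim (pw prod M k) = (k + 1) * dim M ∧
      (k + 1) * q M ≤ q (pw prod M k) := by
    intro M k
    induction k with
    | zero => simp [pw]
    | succ k ih =>
      refine ⟨?_, ?_⟩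
      · change dim (prod (pw prod M k) M) = _
        rw [hdim, ih.1]; ring
      · change _ ≤ q (prod (pw prod M k) M)
        have := hq (pw prod M k) M
        have h2 := ih.2
        push_cast
        linarith
  refine ⟨2 * dim M₀ + 2, fun n hn => ?_⟩
  -- `n = (k + 1) dim M₀ + (r + 1)`
  obtain ⟨k, r, hkr, hr⟩ : ∃ k r : ℕ, n = (k + 1) * dim M₀ + (r + 1) ∧ r < dim M₀ := by
    refine ⟨(n - 1) / dim M₀ - 1, (n - 1) % dim M₀, ?_, Nat.mod_lt _ (by omega)⟩
    have h1 := Nat.div_add_mod (n - 1) (dim M₀)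
    have h2 : 1 ≤ (n - 1) / dim M₀ := by
      rw [Nat.le_div_iff_mul_le (by omega)]; omega
    have h3 : (n - 1) / dim M₀ - 1 + 1 = (n - 1) / dim M₀ := by omega
    rw [h3, mul_comm]
    omega
  obtain ⟨h1, h2⟩ := hpw M₀ k
  obtain ⟨h3, h4⟩ := hpw T r
  refine ⟨prod (pw prod M₀ k) (pw prod T r), by rw [hdim, h1, h3, hT, hkr]; ring, ?_⟩
  have h5 := hq (pw prod M₀ k) (pw prod T r)
  have h6 : (0 : ℝ) ≤ (r + 1) * q T := by positivity
  have h7 : q M₀ / (2 * dim M₀) * n ≤ (k + 1) * q M₀ := by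
    have hd' : (0 : ℝ) < dim M₀ := by exact_mod_cast hd
    rw [div_mul_eq_mul_div, div_le_iff₀ (by positivity)]
    have h8 : (n : ℝ) ≤ 2 * ((k + 1) * dim M₀) := by
      have : n ≤ 2 * ((k + 1) * dim M₀) := by nlinarith
      exact_mod_cast this
    nlinarith
  linarith

/-- A power of a linear function of smaller degree is smaller. -/
theorem exists_genus (k d : ℕ) (c C : ℝ) (hc : 0 < c) :
    ∃ g : ℕ, 2 ≤ g ∧ C * ((d + 2 * g * (k + 1) : ℕ) : ℝ) ^ k < c * (g : ℝ) ^ (k + 1) := by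
  obtain ⟨g, hg⟩ := exists_nat_gt (max 2 (max C 0 * ((d + 2 * (k + 1) : ℕ) : ℝ) ^ k / c))
  have hg2 : (2 : ℝ) < g := lt_of_le_of_lt (le_max_left _ _) hg
  have hg3 : max C 0 * ((d + 2 * (k + 1) : ℕ) : ℝ) ^ k / c < g :=
    lt_of_le_of_lt (le_max_right _ _) hg
  refine ⟨g, by exact_mod_cast hg2.le, ?_⟩
  have hg0 : (0 : ℝ) < g := by linarith
  have h1 : ((d + 2 * g * (k + 1) : ℕ) : ℝ) ≤ ((d + 2 * (k + 1) : ℕ) : ℝ) * g := by
    push_cast
    have : (0 : ℝ) ≤ d := Nat.cast_nonneg _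
    nlinarith
  have h2 : ((d + 2 * g * (k + 1) : ℕ) : ℝ) ^ k ≤ ((d + 2 * (k + 1) : ℕ) : ℝ) ^ k * (g : ℝ) ^ k := by
    rw [← mul_pow]
    exact pow_le_pow_left₀ (Nat.cast_nonneg _) h1 k
  rw [div_lt_iff₀ hc] at hg3
  have h3 : (0 : ℝ) < (g : ℝ) ^ k := by positivity
  calc C * ((d + 2 * g * (k + 1) : ℕ) : ℝ) ^ k
      ≤ max C 0 * ((d + 2 * g * (k + 1) : ℕ) : ℝ) ^ k := by
        apply mul_le_mul_of_nonneg_right (le_max_left _ _); positivity
    _ ≤ max C 0 * (((d + 2 * (k + 1) : ℕ) : ℝ) ^ k * (g : ℝ) ^ k) :=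
        mul_le_mul_of_nonneg_left h2 (le_max_right _ _)
    _ = (max C 0 * ((d + 2 * (k + 1) : ℕ) : ℝ) ^ k) * (g : ℝ) ^ k := by ring
    _ < (g * c) * (g : ℝ) ^ k := by
        apply mul_lt_mul_of_pos_right hg3 h3
    _ = c * (g : ℝ) ^ (k + 1) := by ring

/-- **Rank law.** A supermultiplicative quantity `q` which is at least `g` for surfaces of genus `g`,
and positive for one member with the property `P`, is not bounded by a constant times the power
`m - K` of the rank for the members of dimension `2 m` with the property `P`, if `m` and `K` are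
large. -/
theorem rank_law (dim rk : V → ℕ) (q : V → ℝ) (P : V → Prop) (prod : V → V → V)
    (S : ℕ → V)
    (hdim : ∀ M N, dim (prod M N) = dim M + dim N)
    (hrk : ∀ M N, rk (prod M N) ≤ rk M + rk N)
    (hS : ∀ g, 2 ≤ g → dim (S g) = 2 ∧ rk (S g) ≤ 2 * g)
    (hqS : ∀ M g, 2 ≤ g → P M → g * q M ≤ q (prod M (S g)))
    (hPS : ∀ M g, 2 ≤ g → P M → P (prod M (S g)))
    {M₀ : V} (hP : P M₀) (h₀ : 0 < q M₀) {n₀ : ℕ} (hd : dim M₀ = 2 * n₀) :
    ∀ m, n₀ + 1 ≤ m → ∀ C : ℝ, ∃ M, dim M = 2 * m ∧ P M ∧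
      C * (rk M : ℝ) ^ (m - (n₀ + 1)) < q M := by
  intro m hm C
  obtain ⟨k, rfl⟩ : ∃ k, m = n₀ + 1 + k := ⟨m - (n₀ + 1), by omega⟩
  have hk : n₀ + 1 + k - (n₀ + 1) = k := by omega
  rw [hk]
  -- products with `j + 1` surfaces
  have key : ∀ g, 2 ≤ g → ∀ j : ℕ, ∃ M, dim M = 2 * (n₀ + 1 + j) ∧ P M ∧
      rk M ≤ rk M₀ + 2 * g * (j + 1) ∧ q M₀ * (g : ℝ) ^ (j + 1) ≤ q M := by
    intro g hg j
    induction j with
    | zero =>
      refine ⟨prod M₀ (S g), by rw [hdim, hd, (hS g hg).1]; ring, hPS _ _ hg hP, ?_, ?_⟩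
      · have := hrk M₀ (S g)
        have := (hS g hg).2
        omega
      · have := hqS M₀ g hg hP
        simpa [mul_comm] using this
    | succ j ih =>
      obtain ⟨M, h1, h2, h3, h4⟩ := ih
      refine ⟨prod M (S g), by rw [hdim, h1, (hS g hg).1]; ring, hPS _ _ hg h2, ?_, ?_⟩
      · have h5 := hrk M (S g)
        have h6 := (hS g hg).2
        have h7 : 2 * g * (j + 1 + 1) = 2 * g * (j + 1) + 2 * g := by ring
        omega
      · have h5 := hqS M g hg h2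
        have hg0 : (0 : ℝ) ≤ g := Nat.cast_nonneg _
        calc q M₀ * (g : ℝ) ^ (j + 1 + 1) = g * (q M₀ * (g : ℝ) ^ (j + 1)) := by ring
          _ ≤ g * q M := mul_le_mul_of_nonneg_left h4 hg0
          _ ≤ _ := h5
  obtain ⟨g, hg, hlt⟩ := exists_genus k (rk M₀) (q M₀) (max C 0) h₀
  obtain ⟨M, h1, h2, h3, h4⟩ := key g hg k
  refine ⟨M, h1, h2, lt_of_le_of_lt ?_ (lt_of_lt_of_le hlt h4)⟩
  have h5 : ((rk M : ℕ) : ℝ) ^ k ≤ ((rk M₀ + 2 * g * (k + 1) : ℕ) : ℝ) ^ k := by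
    apply pow_le_pow_left₀ (Nat.cast_nonneg _)
    exact_mod_cast h3
  calc C * (rk M : ℝ) ^ k ≤ max C 0 * (rk M : ℝ) ^ k := by
        apply mul_le_mul_of_nonneg_right (le_max_left _ _); positivity
    _ ≤ _ := mul_le_mul_of_nonneg_left h5 (le_max_right _ _)

end Pool.Agent.Q173.PT
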