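import Pool.Agent.Q173.PT.Laws

/-!
# Curvature and spectrum: bounds which grow more slowly than the dimension
-/

set_option autoImplicit false

namespace Pool.Agent.Q173.PT

universe u

variable {V : Type u}

/-- Products with circles. -/
theorem torus_law (dim cup : V → ℕ) (q : V → ℝ) (prod : V → V → V)
    (hdim : ∀ M N, dim (prod M N) = dim M + dim N)
    (hq : ∀ M N, q M + q N ≤ q (prod M N))
    (T : V) (hT : dim T = 1) (hqT : 0 ≤ q T) (hcup : ∀ M, cup M + 1 ≤ cup (prod M T)) (M₀ : V) :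
    ∀ r : ℕ, ∃ M, dim M = dim M₀ + r ∧ r ≤ cup M ∧ q M₀ ≤ q M := by
  intro r
  induction r with
  | zero => exact ⟨M₀, rfl, Nat.zero_le _, le_rfl⟩
  | succ r ih =>
    obtain ⟨M, h1, h2, h3⟩ := ih
    refine ⟨prod M T, by rw [hdim, h1, hT]; ring, ?_, ?_⟩
    · have := hcup M; omega
    · have := hq M T; linarith

/-- Two criteria for a superadditive quantity to be nonpositive. -/
theorem nonpos_criteria (dim cup : V → ℕ) (q : V → ℝ) (prod : V → V → V)
    (hdim : ∀ M N, dim (prod M N) = dim M + dim N)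
    (hq : ∀ M N, q M + q N ≤ q (prod M N)) (h0 : ∀ M, dim M = 0 → q M ≤ 0)
    (T : V) (hT : dim T = 1) (hqT : 0 ≤ q T) (hcup : ∀ M, cup M + 1 ≤ cup (prod M T)) :
    ((∀ M, q M ≤ 0) ↔ ∀ ε : ℝ, 0 < ε → ∀ B : ℕ, ∃ n, B ≤ n ∧ ∀ M, dim M = n → q M ≤ ε * n) ∧
    ((∀ M, q M ≤ 0) ↔ ∀ K B : ℕ, ∃ n, B ≤ n ∧ ∀ M, dim M = n → n ≤ cup M + K →
      q M ≤ 1 / ((K : ℝ) + 1)) := by
  refine ⟨⟨fun h ε hε B => ⟨B, le_rfl, fun M _ => (h M).trans (by positivity)⟩, fun h M₀ => ?_⟩,
    ⟨fun h K B => ⟨B, le_rfl, fun M _ _ => (h M).trans (by positivity)⟩, fun h M₀ => ?_⟩⟩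
  · by_contra hlt
    push Not at hlt
    have hd : 1 ≤ dim M₀ := by
      by_contra hcon
      exact absurd (h0 M₀ (by omega)) (not_le.2 hlt)
    obtain ⟨B, hB⟩ := linear_law dim q prod hdim hq T hT hqT hlt hd
    have hd' : (0 : ℝ) < dim M₀ := by exact_mod_cast hd
    obtain ⟨n, hn, hM⟩ := h (q M₀ / (4 * dim M₀)) (by positivity) (B + 1)
    obtain ⟨M, h1, h2⟩ := hB n (by omega)
    have h3 := hM M h1
    have hn' : (0 : ℝ) < n := by exact_mod_cast (by omega : 0 < n)
    have h4 : q M₀ / (4 * dim M₀) * n < q M₀ / (2 * dim M₀) * n := by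
      apply mul_lt_mul_of_pos_right _ hn'
      rw [div_lt_div_iff₀ (by positivity) (by positivity)]
      nlinarith
    linarith
  · by_contra hlt
    push Not at hlt
    obtain ⟨K, hK⟩ := exists_nat_gt (1 / q M₀)
    obtain ⟨n, hn, hM⟩ := h (K + dim M₀) (dim M₀)
    obtain ⟨M, h1, h2, h3⟩ := torus_law dim cup q prod hdim hq T hT hqT hcup M₀ (n - dim M₀)
    have h4 := hM M (by omega) (by omega)
    have h5 : 1 / (((K + dim M₀ : ℕ) : ℝ) + 1) < q M₀ := by
      rw [div_lt_iff₀ (by positivity)]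
      rw [div_lt_iff₀ hlt] at hK
      push_cast
      have : (0 : ℝ) ≤ dim M₀ := Nat.cast_nonneg _
      nlinarith
    linarith

/-- Data of closed aspherical Riemannian manifolds with sectional curvatures in `[-1, 1]`. -/
structure ScalData (V : Type u) where
  /-- the dimension -/
  dim : V → ℕ
  /-- the maximal number of classes in `H¹(M; ℤ)` with nonzero product -/
  cup : V → ℕ
  /-- the minimum of the scalar curvature -/
  scal : V → ℝ
  /-- Riemannian products -/
  prod : V → V → V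
  /-- the circle -/
  circle : V

/-- Known properties. -/
structure ScalData.IsKnown (G : ScalData V) : Prop where
  dim_prod : ∀ M N, G.dim (G.prod M N) = G.dim M + G.dim N
  scal_prod : ∀ M N, G.scal (G.prod M N) = G.scal M + G.scal N
  point : ∀ M, G.dim M = 0 → G.scal M = 0
  dim_circle : G.dim G.circle = 1
  scal_circle : G.scal G.circle = 0
  cup_circle : ∀ M, G.cup M + 1 ≤ G.cup (G.prod M G.circle)

/-- No closed aspherical manifold has a metric of positive scalar curvature. -/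
def ScalData.NoPositive (G : ScalData V) : Prop := ∀ M, G.scal M ≤ 0

theorem ScalData.IsKnown.criteria {G : ScalData V} (hG : G.IsKnown) :
    (G.NoPositive ↔ ∀ ε : ℝ, 0 < ε → ∀ B : ℕ, ∃ n, B ≤ n ∧
      ∀ M, G.dim M = n → G.scal M ≤ ε * n) ∧
    (G.NoPositive ↔ ∀ K B : ℕ, ∃ n, B ≤ n ∧
      ∀ M, G.dim M = n → n ≤ G.cup M + K → G.scal M ≤ 1 / ((K : ℝ) + 1)) :=
  nonpos_criteria G.dim G.cup G.scal G.prod hG.dim_prod (fun M N => (hG.scal_prod M N).ge)
    (fun M hM => (hG.point M hM).le) G.circle hG.dim_circle hG.scal_circle.ge hG.cup_circle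

/-- Data of closed connected oriented aspherical Riemannian manifolds with sectional curvatures in
`[-1, 1]`. -/
structure SpecData (V : Type u) where
  /-- the dimension -/
  dim : V → ℕ
  /-- the maximal number of classes in `H¹(M; ℤ)` with nonzero product -/
  cup : V → ℕ
  /-- the bottom of the spectrum of the Laplacian on the square integrable forms of all degrees on the
  universal covering -/
  bot : V → ℝ
  /-- Riemannian products -/
  prod : V → V → V
  /-- the circle -/
  circle : V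

/-- Known properties. -/
structure SpecData.IsKnown (G : SpecData V) : Prop where
  dim_prod : ∀ M N, G.dim (G.prod M N) = G.dim M + G.dim N
  nonneg : ∀ M, 0 ≤ G.bot M
  bot_prod : ∀ M N, G.bot (G.prod M N) = G.bot M + G.bot N
  point : ∀ M, G.dim M = 0 → G.bot M = 0
  dim_circle : G.dim G.circle = 1
  bot_circle : G.bot G.circle = 0
  cup_circle : ∀ M, G.cup M + 1 ≤ G.cup (G.prod M G.circle)

/-- Zero is in the spectrum, for all members. -/
def SpecData.ZeroIn (G : SpecData V) : Prop := ∀ M, G.bot M = 0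

theorem SpecData.IsKnown.criteria {G : SpecData V} (hG : G.IsKnown) :
    (G.ZeroIn ↔ ∀ ε : ℝ, 0 < ε → ∀ B : ℕ, ∃ n, B ≤ n ∧
      ∀ M, G.dim M = n → G.bot M ≤ ε * n) ∧
    (G.ZeroIn ↔ ∀ K B : ℕ, ∃ n, B ≤ n ∧
      ∀ M, G.dim M = n → n ≤ G.cup M + K → G.bot M ≤ 1 / ((K : ℝ) + 1)) := by
  have h := nonpos_criteria G.dim G.cup G.bot G.prod hG.dim_prod (fun M N => (hG.bot_prod M N).ge)
    (fun M hM => (hG.point M hM).le) G.circle hG.dim_circle hG.bot_circle.ge hG.cup_circle
  have e : G.ZeroIn ↔ ∀ M, G.bot M ≤ 0 :=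
    ⟨fun h M => (h M).le, fun h M => le_antisymm (h M) (hG.nonneg M)⟩
  rw [e]
  exact h

/-- Data of finite aspherical CW complexes. -/
structure CellData (V : Type u) where
  /-- the dimension -/
  dim : V → ℕ
  /-- the bottom of the spectrum of the combinatorial Laplacian `∂∂* + ∂*∂` on the square summable
  chains of all degrees of the universal covering -/
  bot : V → ℝ
  /-- the top of the spectrum (the norm) of this operator -/
  top : V → ℝ
  /-- products -/
  prod : V → V → V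
  /-- the circle with one cell of dimension `0` and one of dimension `1` -/
  circle : V

/-- Known properties. -/
structure CellData.IsKnown (G : CellData V) : Prop where
  dim_prod : ∀ M N, G.dim (G.prod M N) = G.dim M + G.dim N
  nonneg : ∀ M, 0 ≤ G.bot M
  bot_le : ∀ M, G.bot M ≤ G.top M
  bot_prod : ∀ M N, G.bot (G.prod M N) = G.bot M + G.bot N
  top_prod : ∀ M N, G.top (G.prod M N) = G.top M + G.top N
  point : ∀ M, G.dim M = 0 → G.bot M = 0
  dim_circle : G.dim G.circle = 1
  bot_circle : G.bot G.circle = 0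
  top_circle : G.top G.circle = 4

/-- Zero is in the spectrum, for all members. -/
def CellData.ZeroIn (G : CellData V) : Prop := ∀ M, G.bot M = 0

theorem pw_dim {dim : V → ℕ} {prod : V → V → V}
    (hdim : ∀ M N, dim (prod M N) = dim M + dim N) (M : V) (k : ℕ) :
    dim (pw prod M k) = (k + 1) * dim M := by
  induction k with
  | zero => simp [pw]
  | succ k ih =>
    change dim (prod (pw prod M k) M) = _
    rw [hdim, ih]; ring

theorem pw_add {q : V → ℝ} {prod : V → V → V}
    (hq : ∀ M N, q (prod M N) = q M + q N) (M : V) (k : ℕ) :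
    q (pw prod M k) = (k + 1) * q M := by
  induction k with
  | zero => simp [pw]
  | succ k ih =>
    change q (prod (pw prod M k) M) = _
    rw [hq, ih]; push_cast; ring

theorem CellData.IsKnown.criterion {G : CellData V} (hG : G.IsKnown) :
    G.ZeroIn ↔ ∀ ε : ℝ, 0 < ε → ∀ B : ℕ, ∃ n, B ≤ n ∧
      ∀ M, G.dim M = n → G.bot M ≤ ε * G.top M := by
  constructor
  · intro h ε hε B
    refine ⟨B, le_rfl, fun M _ => ?_⟩
    rw [h M]
    have := (hG.nonneg M).trans (hG.bot_le M)
    positivity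
  · intro h M₀
    by_contra hne
    have hpos : 0 < G.bot M₀ := lt_of_le_of_ne (hG.nonneg _) (Ne.symm hne)
    have htop : 0 < G.top M₀ := lt_of_lt_of_le hpos (hG.bot_le _)
    have hd : 1 ≤ G.dim M₀ := by
      by_contra hcon
      exact hne (hG.point M₀ (by omega))
    have hd' : (0 : ℝ) < G.dim M₀ := by exact_mod_cast hd
    set ε : ℝ := G.bot M₀ / (2 * (G.top M₀ + 4 * G.dim M₀)) with hε
    have hε0 : 0 < ε := by positivity
    obtain ⟨n, hn, hM⟩ := h ε hε0 (2 * G.dim M₀ + 2)
    obtain ⟨k, r, hkr, hr⟩ : ∃ k r : ℕ, n = (k + 1) * G.dim M₀ + (r + 1) ∧ r < G.dim M₀ := by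
      refine ⟨(n - 1) / G.dim M₀ - 1, (n - 1) % G.dim M₀, ?_, Nat.mod_lt _ (by omega)⟩
      have h1 := Nat.div_add_mod (n - 1) (G.dim M₀)
      have h2 : 1 ≤ (n - 1) / G.dim M₀ := by
        rw [Nat.le_div_iff_mul_le (by omega)]; omega
      have h3 : (n - 1) / G.dim M₀ - 1 + 1 = (n - 1) / G.dim M₀ := by omega
      rw [h3, mul_comm]
      omega
    have h1 := hM (G.prod (pw G.prod M₀ k) (pw G.prod G.circle r)) (by
      rw [hG.dim_prod, pw_dim hG.dim_prod, pw_dim hG.dim_prod, hG.dim_circle, hkr]; ring)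
    rw [hG.bot_prod, hG.top_prod, pw_add hG.bot_prod, pw_add hG.bot_prod, pw_add hG.top_prod,
      pw_add hG.top_prod, hG.bot_circle, hG.top_circle] at h1
    have h2 : ((r : ℝ) + 1) ≤ G.dim M₀ := by exact_mod_cast hr
    have h3 : (0 : ℝ) ≤ k := Nat.cast_nonneg k
    have h4 : ((k : ℝ) + 1) * G.top M₀ + (r + 1) * 4 ≤ (k + 1) * (G.top M₀ + 4 * G.dim M₀) := by
      nlinarith
    have h5 : ε * (((k : ℝ) + 1) * G.top M₀ + (r + 1) * 4) ≤
        ε * ((k + 1) * (G.top M₀ + 4 * G.dim M₀)) := mul_le_mul_of_nonneg_left h4 hε0.le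
    have h6 : ε * (((k : ℝ) + 1) * (G.top M₀ + 4 * G.dim M₀)) = (k + 1) * (G.bot M₀ / 2) := by
      rw [hε]; field_simp
    nlinarith

end Pool.Agent.Q173.PT
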