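import Pool.Agent.Q173.PT.Linear

/-!
# Lower semicontinuity of minimal log discrepancies up to a sublinear error
-/

set_option autoImplicit false

namespace Pool.Agent.Q173.PT

universe u

/-- Data of triples `(X, Δ, x)` as in the problem, such that `x` is a closed point and `(X, Δ)` is log
canonical at `x`. -/
structure MldData (V : Type u) where
  /-- the dimension of `X` -/
  dim : V → ℕ
  /-- the minimal log discrepancy at `x` -/
  mld : V → ℝ
  /-- the smallest number which is the minimal log discrepancy at closed points in every neighbourhood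
  of `x` -/
  near : V → ℝ
  /-- products -/
  prod : V → V → V
  /-- the affine line with a point (and `Δ = 0`) -/
  line : V

/-- Known properties. -/
structure MldData.IsKnown {V : Type u} (G : MldData V) : Prop where
  dim_prod : ∀ M N, G.dim (G.prod M N) = G.dim M + G.dim N
  mld_prod : ∀ M N, G.mld (G.prod M N) = G.mld M + G.mld N
  near_prod : ∀ M N, G.near (G.prod M N) = G.near M + G.near N
  near_le : ∀ M, G.near M ≤ G.mld M
  point : ∀ M, G.dim M = 0 → G.near M = G.mld M
  dim_line : G.dim G.line = 1
  line : G.near G.line = G.mld G.line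

/-- Lower semicontinuity at all closed points. -/
def MldData.LSC {V : Type u} (G : MldData V) : Prop := ∀ M, G.near M = G.mld M

theorem MldData.IsKnown.criterion {V : Type u} {G : MldData V} (hG : G.IsKnown) :
    G.LSC ↔ ∀ ε : ℝ, 0 < ε → ∀ B : ℕ, ∃ n, B ≤ n ∧
      ∀ M, G.dim M = n → G.mld M ≤ G.near M + ε * n := by
  constructor
  · intro h ε hε B
    refine ⟨B, le_rfl, fun M _ => ?_⟩
    rw [h M]
    have : (0 : ℝ) ≤ ε * B := by positivity
    linarith
  · intro h M₀
    by_contra hne
    have hlt : 0 < G.mld M₀ - G.near M₀ :=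
      sub_pos.2 (lt_of_le_of_ne (hG.near_le M₀) hne)
    have hd : 1 ≤ G.dim M₀ := by
      by_contra hcon
      exact hne (hG.point M₀ (by omega))
    obtain ⟨B, hB⟩ := linear_law G.dim (fun M => G.mld M - G.near M) G.prod hG.dim_prod
      (fun M N => by
        rw [hG.mld_prod, hG.near_prod]
        linarith)
      G.line hG.dim_line (by rw [hG.line]; simp) hlt hd
    have hd' : (0 : ℝ) < G.dim M₀ := by exact_mod_cast hd
    obtain ⟨n, hn, hM⟩ := h ((G.mld M₀ - G.near M₀) / (4 * G.dim M₀)) (by positivity) (B + 1)
    obtain ⟨M, h1, h2⟩ := hB n (by omega)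
    have h3 := hM M h1
    have hn' : (0 : ℝ) < n := by exact_mod_cast (by omega : 0 < n)
    have h4 : (G.mld M₀ - G.near M₀) / (4 * G.dim M₀) * n <
        (G.mld M₀ - G.near M₀) / (2 * G.dim M₀) * n := by
      apply mul_lt_mul_of_pos_right _ hn'
      rw [div_lt_div_iff₀ (by positivity) (by positivity)]
      nlinarith
    linarith

end Pool.Agent.Q173.PT
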