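import Pool.Agent.Q173.PT.Laws

/-!
# Euler characteristic and simplicial volume of aspherical manifolds
-/

set_option autoImplicit false

namespace Pool.Agent.Q173.PT

universe u

/-- Data of closed connected oriented aspherical manifolds. -/
structure SimplicialData (V : Type u) where
  /-- the dimension -/
  dim : V → ℕ
  /-- the Euler characteristic -/
  chi : V → ℤ
  /-- the simplicial volume -/
  norm : V → ℝ
  /-- the minimal number of generators of the fundamental group -/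
  rk : V → ℕ
  /-- products -/
  prod : V → V → V
  /-- the surface of genus `g` -/
  surf : ℕ → V

namespace SimplicialData

variable {V : Type u} (G : SimplicialData V)

/-- Known properties. -/
structure IsKnown : Prop where
  dim_prod : ∀ M N, G.dim (G.prod M N) = G.dim M + G.dim N
  chi_prod : ∀ M N, G.chi (G.prod M N) = G.chi M * G.chi N
  norm_prod : ∀ M N, G.norm M = 0 → G.norm (G.prod M N) = 0
  rk_prod : ∀ M N, G.rk (G.prod M N) ≤ G.rk M + G.rk N
  /-- Poincaré duality -/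
  odd : ∀ M, Odd (G.dim M) → G.chi M = 0
  surf : ∀ g, 2 ≤ g → G.dim (G.surf g) = 2 ∧ G.rk (G.surf g) ≤ 2 * g ∧
    G.chi (G.surf g) = 2 - 2 * (g : ℤ)

/-- Gromov's question: if the simplicial volume vanishes, then the Euler characteristic vanishes. -/
def Gromov : Prop := ∀ M, G.norm M = 0 → G.chi M = 0

theorem IsKnown.gromov_iff {G : SimplicialData V} (hG : G.IsKnown) :
    G.Gromov ↔ ∀ K B : ℕ, ∃ m, B ≤ m ∧ K ≤ m ∧ ∃ C : ℝ, ∀ M, G.dim M = 2 * m → G.norm M = 0 →
      |(G.chi M : ℝ)| ≤ C * (G.rk M : ℝ) ^ (m - K) := by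
  constructor
  · intro h K B
    refine ⟨B + K, by omega, by omega, 0, fun M _ hM => ?_⟩
    rw [h M hM]; simp
  · intro h M₀ hM₀
    by_contra hχ
    obtain ⟨n₀, hn₀⟩ : ∃ n₀, G.dim M₀ = 2 * n₀ := by
      rcases Nat.even_or_odd' (G.dim M₀) with ⟨c, hc | hc⟩
      · exact ⟨c, hc⟩
      · exact absurd (hG.odd M₀ ⟨c, hc⟩) hχ
    obtain ⟨m, h1, h2, C, hC⟩ := h (n₀ + 1) 0
    obtain ⟨M, h3, h4, h5⟩ := rank_law G.dim G.rk (fun M => |(G.chi M : ℝ)|)
      (fun M => G.norm M = 0) G.prod G.surf hG.dim_prod hG.rk_prod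
      (fun g hg => ⟨(hG.surf g hg).1, (hG.surf g hg).2.1⟩)
      (fun M g hg _ => by
        rw [hG.chi_prod, (hG.surf g hg).2.2]
        push_cast
        rw [abs_mul, mul_comm]
        apply mul_le_mul_of_nonneg_left _ (abs_nonneg _)
        have : (2 : ℝ) ≤ g := by exact_mod_cast hg
        rw [abs_sub_comm, abs_of_nonneg (by linarith)]
        linarith)
      (fun M g hg hM => hG.norm_prod _ _ hM) hM₀
      (by
        exact abs_pos.2 (by exact_mod_cast hχ)) hn₀ m h2 C
    exact absurd (hC M h3 h4) (not_le.2 h5)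

end SimplicialData

/-- Data of closed aspherical manifolds and their `L²`-Betti numbers. -/
structure BettiData (V : Type u) where
  /-- the dimension -/
  dim : V → ℕ
  /-- the Euler characteristic -/
  chi : V → ℤ
  /-- the `L²`-Betti numbers -/
  betti : V → ℕ → ℝ
  /-- the minimal number of generators of the fundamental group -/
  rk : V → ℕ
  /-- products -/
  prod : V → V → V
  /-- the surface of genus `g` -/
  surf : ℕ → V

namespace BettiData

variable {V : Type u} (G : BettiData V)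

/-- Known properties. -/
structure IsKnown : Prop where
  dim_prod : ∀ M N, G.dim (G.prod M N) = G.dim M + G.dim N
  chi_prod : ∀ M N, G.chi (G.prod M N) = G.chi M * G.chi N
  rk_prod : ∀ M N, G.rk (G.prod M N) ≤ G.rk M + G.rk N
  nonneg : ∀ M p, 0 ≤ G.betti M p
  above : ∀ M p, G.dim M < p → G.betti M p = 0
  /-- the Künneth formula -/
  kunneth : ∀ M N p, G.betti (G.prod M N) p =
    ∑ i ∈ Finset.range (p + 1), G.betti M i * G.betti N (p - i)
  surf : ∀ g, 2 ≤ g → G.dim (G.surf g) = 2 ∧ G.rk (G.surf g) ≤ 2 * g ∧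
    G.betti (G.surf g) 1 = 2 * (g : ℝ) - 2

variable {G}

theorem IsKnown.le_prod (hG : G.IsKnown) (M N : V) (i j : ℕ) :
    G.betti M i * G.betti N j ≤ G.betti (G.prod M N) (i + j) := by
  rw [hG.kunneth]
  have h := Finset.single_le_sum (f := fun x => G.betti M x * G.betti N (i + j - x))
    (s := Finset.range (i + j + 1)) (fun x _ => mul_nonneg (hG.nonneg _ _) (hG.nonneg _ _))
    (Finset.mem_range.2 (by omega : i < i + j + 1))
  simpa using h

variable (G)

/-- The question: if the Euler characteristic vanishes, then all `L²`-Betti numbers vanish. -/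
def Vanishing : Prop := ∀ M, G.chi M = 0 → ∀ p, G.betti M p = 0

/-- The Singer conjecture: the `L²`-Betti numbers vanish outside of the middle degree. -/
def Singer : Prop := ∀ M p, 2 * p ≠ G.dim M → G.betti M p = 0

end BettiData

/-- Pairs of a manifold and a degree. -/
theorem BettiData.IsKnown.rank_pair {V : Type u} {G : BettiData V} (hG : G.IsKnown)
    (P : V × ℕ → Prop) (hPS : ∀ M i g, 2 ≤ g → P (M, i) → P (G.prod M (G.surf g), i + 1))
    {M₀ : V} {i₀ : ℕ} (hP : P (M₀, i₀)) (h₀ : 0 < G.betti M₀ i₀) {n₀ : ℕ}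
    (hd : G.dim M₀ = 2 * n₀) :
    ∀ m, n₀ + 1 ≤ m → ∀ C : ℝ, ∃ M i, G.dim M = 2 * m ∧ P (M, i) ∧
      C * (G.rk M : ℝ) ^ (m - (n₀ + 1)) < G.betti M i := by
  intro m hm C
  obtain ⟨⟨M, i⟩, h1, h2, h3⟩ := rank_law (V := V × ℕ) (fun x => G.dim x.1) (fun x => G.rk x.1)
    (fun x => G.betti x.1 x.2) P (fun x y => (G.prod x.1 y.1, x.2 + y.2)) (fun g => (G.surf g, 1))
    (fun x y => hG.dim_prod _ _) (fun x y => hG.rk_prod _ _)
    (fun g hg => ⟨(hG.surf g hg).1, (hG.surf g hg).2.1⟩)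
    (fun x g hg _ => by
      change (g : ℝ) * G.betti x.1 x.2 ≤ G.betti (G.prod x.1 (G.surf g)) (x.2 + 1)
      refine le_trans ?_ (hG.le_prod x.1 (G.surf g) x.2 1)
      rw [(hG.surf g hg).2.2, mul_comm]
      apply mul_le_mul_of_nonneg_left _ (hG.nonneg _ _)
      have : (2 : ℝ) ≤ g := by exact_mod_cast hg
      linarith)
    (fun x g hg hx => hPS _ _ g hg hx) (M₀ := (M₀, i₀)) hP h₀ hd m hm C
  exact ⟨M, i, h1, h2, h3⟩

/-- The criterion for the vanishing of the `L²`-Betti numbers if the Euler characteristic is zero. -/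
theorem BettiData.IsKnown.vanishing_iff {V : Type u} {G : BettiData V} (hG : G.IsKnown) :
    G.Vanishing ↔ ∀ K B : ℕ, ∃ m, B ≤ m ∧ K ≤ m ∧ ∃ C : ℝ, ∀ M, G.dim M = 2 * m →
      G.chi M = 0 → ∀ p, G.betti M p ≤ C * (G.rk M : ℝ) ^ (m - K) := by
  constructor
  · intro h K B
    refine ⟨B + K, by omega, by omega, 0, fun M _ hM p => ?_⟩
    rw [h M hM p]; simp
  · intro h M₀ hM₀ p₀
    by_contra hne
    have hpos : 0 < G.betti M₀ p₀ := lt_of_le_of_ne (hG.nonneg _ _) (Ne.symm hne)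
    obtain ⟨m, h1, h2, C, hC⟩ := h (G.dim M₀ + 1) 0
    obtain ⟨M, i, h3, h4, h5⟩ := hG.rank_pair (fun x => G.chi x.1 = 0)
      (fun M i g hg hM => by
        change G.chi (G.prod M (G.surf g)) = 0
        have : G.chi M = 0 := hM
        rw [hG.chi_prod, this, zero_mul])
      (M₀ := G.prod M₀ M₀) (i₀ := p₀ + p₀) (n₀ := G.dim M₀)
      (by change G.chi (G.prod M₀ M₀) = 0; rw [hG.chi_prod, hM₀, zero_mul])
      (lt_of_lt_of_le (mul_pos hpos hpos) (hG.le_prod _ _ _ _))
      (by rw [hG.dim_prod]; ring) m h2 C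
    exact absurd (hC M h3 h4 i) (not_le.2 h5)

/-- The criterion for the Singer conjecture. -/
theorem BettiData.IsKnown.singer_iff {V : Type u} {G : BettiData V} (hG : G.IsKnown) :
    G.Singer ↔ ∀ K B : ℕ, ∃ m, B ≤ m ∧ K ≤ m ∧ ∃ C : ℝ, ∀ M, G.dim M = 2 * m →
      ∀ p, p ≠ m → p ≤ m + K → m ≤ p + K →
        G.betti M p ≤ C * (G.rk M : ℝ) ^ (m - K) := by
  constructor
  · intro h K B
    refine ⟨B + K, by omega, by omega, 0, fun M hM p hp _ _ => ?_⟩
    rw [h M p (by omega)]; simp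
  · intro h M₀ p₀ hp₀
    by_contra hne
    have hpos : 0 < G.betti M₀ p₀ := lt_of_le_of_ne (hG.nonneg _ _) (Ne.symm hne)
    have hle : p₀ ≤ G.dim M₀ := by
      by_contra hcon
      exact hne (hG.above _ _ (by omega))
    obtain ⟨m, h1, h2, C, hC⟩ := h (G.dim M₀ + 1) 0
    obtain ⟨M, i, h3, h4, h5⟩ := hG.rank_pair
      (fun x => 2 * x.2 + 2 * G.dim M₀ = G.dim x.1 + 4 * p₀)
      (fun M i g hg hM => by
        change 2 * (i + 1) + 2 * G.dim M₀ = G.dim (G.prod M (G.surf g)) + 4 * p₀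
        have : 2 * i + 2 * G.dim M₀ = G.dim M + 4 * p₀ := hM
        rw [hG.dim_prod, (hG.surf g hg).1]
        omega)
      (M₀ := G.prod M₀ M₀) (i₀ := p₀ + p₀) (n₀ := G.dim M₀)
      (by change 2 * (p₀ + p₀) + 2 * G.dim M₀ = G.dim (G.prod M₀ M₀) + 4 * p₀
          rw [hG.dim_prod]; ring)
      (lt_of_lt_of_le (mul_pos hpos hpos) (hG.le_prod _ _ _ _))
      (by rw [hG.dim_prod]; ring) m h2 C
    have h4' : 2 * i + 2 * G.dim M₀ = G.dim M + 4 * p₀ := h4
    exact absurd (hC M h3 i (by omega) (by omega) (by omega)) (not_le.2 h5)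

end Pool.Agent.Q173.PT
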